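import Mathlib

/-!
# MP_621202_pr, probabilistic cellular automata: definitions
-/

set_option autoImplicit false

open MeasureTheory Filter Topology

namespace Pool.PCAut

/-- Configurations, the elements of `A^(ℤ^d)`. -/
abbrev Conf (d : ℕ) (A : Type) : Type := (Fin d → ℤ) → A

variable {d : ℕ} {A : Type} [MeasurableSpace A]

/-- The law of the next configuration `Y` given `x`: its coordinates are independent, and `Y i` has
the law `φ ((x (i + n))_(n ∈ N))`. -/
noncomputable def next (N : Finset (Fin d → ℤ)) (φ : (N → A) → ProbabilityMeasure A)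
    (x : Conf d A) : Measure (Conf d A) :=
  Measure.infinitePi fun i => (φ fun n : N => x (i + n) : Measure A)

/-- The automaton `Φ` with neighbourhood `N` and local rule `φ`: `Φ μ` is the law of the next
configuration when `x` has the law `μ`. -/
noncomputable def act (N : Finset (Fin d → ℤ)) (φ : (N → A) → ProbabilityMeasure A)
    (μ : Measure (Conf d A)) : Measure (Conf d A) :=
  μ.bind (next N φ)

/-- The cylinder set of the configurations equal to `a` on the finite set `F` of sites. -/
def cyl (F : Finset (Fin d → ℤ)) (a : Conf d A) : Set (Conf d A) := {x | ∀ i ∈ F, x i = a i}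

/-- `π` is an invariant probability measure, and the only one. -/
def UniqueInvariant (N : Finset (Fin d → ℤ)) (φ : (N → A) → ProbabilityMeasure A)
    (π : Measure (Conf d A)) : Prop :=
  IsProbabilityMeasure π ∧ act N φ π = π ∧
    ∀ μ : Measure (Conf d A), IsProbabilityMeasure μ → act N φ μ = μ → μ = π

/-- `Φ` is ergodic: it has a unique invariant measure `π`, and `Φ^t μ (C) → π (C)` for every initial
law `μ` and every cylinder set `C`. -/
def Ergodic (N : Finset (Fin d → ℤ)) (φ : (N → A) → ProbabilityMeasure A) : Prop :=
  ∃ π : Measure (Conf d A), UniqueInvariant N φ π ∧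
    ∀ μ : Measure (Conf d A), IsProbabilityMeasure μ →
      ∀ (F : Finset (Fin d → ℤ)) (a : Conf d A),
        Tendsto (fun t : ℕ => (act N φ)^[t] μ (cyl F a)) atTop (𝓝 (π (cyl F a)))

/-- `Φ` is uniformly ergodic: it has a unique invariant measure `π`, and for every cylinder set `C`
the supremum over all initial laws `μ` of `|Φ^t μ (C) - π (C)|` tends to `0`. -/
def UniformlyErgodic (N : Finset (Fin d → ℤ)) (φ : (N → A) → ProbabilityMeasure A) : Prop :=
  ∃ π : Measure (Conf d A), UniqueInvariant N φ π ∧
    ∀ (F : Finset (Fin d → ℤ)) (a : Conf d A),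
      Tendsto (fun t : ℕ => ⨆ μ : ProbabilityMeasure (Conf d A),
        |((act N φ)^[t] (μ : Measure (Conf d A))).real (cyl F a) - π.real (cyl F a)|)
        atTop (𝓝 0)

end Pool.PCAut
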