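import Pool.Agent.H14.INS.PCADefs
import Pool.Agent.H96.PCA

/-!
# MP_621202_pr: the six letter automaton is ergodic, not uniformly ergodic
-/

set_option autoImplicit false

open MeasureTheory ProbabilityTheory Filter Topology

namespace Pool.PCAut

section General

variable {d : ℕ} {A : Type} [Finite A] [MeasurableSpace A] [DiscreteMeasurableSpace A]


lemma measurableSet_cyl (F : Finset (Fin d → ℤ)) (a : Conf d A) : MeasurableSet (cyl F a) := by
  have : cyl F a = ⋂ k ∈ F, {x : Conf d A | x k = a k} := by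
    ext x; simp [cyl]
  rw [this]
  refine Finset.measurableSet_biInter _ fun k _ => ?_
  have h : Measurable (fun x : Conf d A => x k) := measurable_pi_apply k
  exact h (measurableSet_singleton (a k))

/-- the cylinder sets generate the product sigma-algebra -/
lemma generate_cyl : (MeasurableSpace.pi : MeasurableSpace (Conf d A)) =
    MeasurableSpace.generateFrom {C | ∃ (F : Finset (Fin d → ℤ)) (a : Conf d A), C = cyl F a} := by
  apply le_antisymm
  · refine iSup_le fun k => ?_
    rintro _ ⟨t, -, rfl⟩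
    have ht : (fun x : Conf d A => x k) ⁻¹' t = ⋃ c ∈ t, cyl {k} (fun _ => c) := by
      ext x
      simp [cyl]
    rw [ht]
    refine MeasurableSet.biUnion (Set.to_countable t) fun c _ => ?_
    exact MeasurableSpace.measurableSet_generateFrom ⟨_, _, rfl⟩
  · refine MeasurableSpace.generateFrom_le ?_
    rintro _ ⟨F, a, rfl⟩
    exact measurableSet_cyl F a

omit [Finite A] [MeasurableSpace A] [DiscreteMeasurableSpace A] in
lemma pi_cyl : IsPiSystem {C | ∃ (F : Finset (Fin d → ℤ)) (a : Conf d A), C = cyl F a} := by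
  classical
  rintro _ ⟨F, a, rfl⟩ _ ⟨F', a', rfl⟩ ⟨x, h1, h2⟩
  refine ⟨F ∪ F', x, ?_⟩
  ext y
  simp only [cyl, Set.mem_inter_iff, Set.mem_ofPred_eq, Finset.mem_union] at h1 h2 ⊢
  constructor
  · rintro ⟨h3, h4⟩ i (hi | hi)
    · rw [h3 i hi, h1 i hi]
    · rw [h4 i hi, h2 i hi]
  · intro h3
    exact ⟨fun i hi => (h3 i (Or.inl hi)).trans (h1 i hi),
      fun i hi => (h3 i (Or.inr hi)).trans (h2 i hi)⟩

lemma ext_cyl (μ ν : Measure (Conf d A)) [IsProbabilityMeasure μ] [IsProbabilityMeasure ν]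
    (h : ∀ (F : Finset (Fin d → ℤ)) (a : Conf d A), μ (cyl F a) = ν (cyl F a)) : μ = ν := by
  refine ext_of_generate_finite _ generate_cyl pi_cyl ?_ (by simp)
  rintro _ ⟨F, a, rfl⟩
  exact h F a

end General

open Pool.Agent.H96.PCA

lemma next_eq : next N f = κ := by
  funext x
  exact (κ_eq x).symm

lemma act_eq : act N f = step := by
  funext μ
  unfold act step
  rw [next_eq]

lemma F_zero {y : Pool.Agent.H96.PCA.Conf} (h : ∀ k, (y k).1 = 0) (k : Z1) : F y k = 0 := by
  rw [eq_c k, F_c]
  simp [rule, h]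

lemma step_lim : step lim = lim := by
  refine Measure.ext fun E hE => ?_
  rw [step_apply lim hE]
  have hm : Measurable (fun b : Z1 → Bool => glue (x0, b)) :=
    measurable_glue.comp measurable_prodMk_left
  have h1 : lim = P.map (fun b => glue (x0, b)) := κ_apply' x0
  rw [h1, lintegral_map (κ.measurable_coe hE) hm]
  have h2 : ∀ b : Z1 → Bool, κ (glue (x0, b)) E = P.map (fun b => glue (x0, b)) E := by
    intro b
    rw [κ_apply _ hE, Measure.map_apply hm hE]
    refine congrArg P (Set.ext fun b' => ?_)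
    have h3 : glue (glue (x0, b), b') = glue (x0, b') := by
      funext k
      have h4 : F (glue (x0, b)) k = F x0 k := by
        rw [F_x0, F_zero]
        intro k'
        exact F_x0 k'
      simp only [glue] at h4 ⊢
      rw [h4]
    simp only [Set.mem_ofPred_eq, Set.mem_preimage, h3]
  simp only [h2]
  rw [lintegral_const, measure_univ, mul_one]

lemma iter_fix (μ : Measure Pool.Agent.H96.PCA.Conf) (h : step μ = μ) (n : ℕ) :
    step^[n] μ = μ := by
  induction n with
  | zero => rfl
  | succ n ih => rw [Function.iterate_succ_apply', ih, h]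

lemma unique_lim : UniqueInvariant N f lim := by
  refine ⟨inferInstance, by rw [act_eq, step_lim], fun μ hμ h => ?_⟩
  rw [act_eq] at h
  refine ext_cyl μ lim fun S a => ?_
  have h1 : Tendsto (fun n : ℕ => (step^[n] μ) (Cyl S a)) atTop (𝓝 (lim (Cyl S a))) :=
    Pool.Agent.H96.PCA.ergodic μ S a
  simp only [iter_fix μ h] at h1
  exact tendsto_nhds_unique tendsto_const_nhds h1

lemma ergodic_f : Ergodic N f := by
  refine ⟨lim, unique_lim, fun μ hμ S a => ?_⟩
  rw [act_eq]
  exact Pool.Agent.H96.PCA.ergodic μ S a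

lemma not_uniform : ¬ UniformlyErgodic N f := by
  rintro ⟨π, ⟨hπ, -, -⟩, h⟩
  refine final π fun S a ε hε => ?_
  have h1 := (h S a).eventually_lt_const hε
  obtain ⟨n0, hn0⟩ := eventually_atTop.mp h1
  refine ⟨n0, fun n hn μ hμ => lt_of_le_of_lt ?_ (hn0 n hn)⟩
  have hb : BddAbove (Set.range fun μ : ProbabilityMeasure (Conf 1 Cell) =>
      |((act N f)^[n] (μ : Measure (Conf 1 Cell))).real (cyl S a) - π.real (cyl S a)|) := by
    refine ⟨1, ?_⟩
    rintro _ ⟨μ, rfl⟩
    simp only
    rw [act_eq]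
    have := isProb_iter (μ : Measure (Conf 1 Cell)) n
    have h1 : (step^[n] (μ : Measure (Conf 1 Cell))).real (cyl S a) ≤ 1 := measureReal_le_one
    have h2 : π.real (cyl S a) ≤ 1 := measureReal_le_one
    have h3 : 0 ≤ (step^[n] (μ : Measure (Conf 1 Cell))).real (cyl S a) := measureReal_nonneg
    have h4 : 0 ≤ π.real (cyl S a) := measureReal_nonneg
    rw [abs_le]
    constructor <;> linarith
  have h2 := le_ciSup hb (⟨μ, hμ⟩ : ProbabilityMeasure (Conf 1 Cell))
  simp only [act_eq] at h2 ⊢
  exact h2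

/-- the symbol `(2, false)` everywhere -/
def aL : Conf 1 Cell := fun _ => (2, false)

lemma stays (t : ℕ) (ht : 1 ≤ t) : ∃ x : Conf 1 Cell,
    1 / 2 ≤ ((act N f)^[t] (Measure.dirac x)) (cyl {0} aL) := by
  obtain ⟨n, rfl⟩ : ∃ n, t = n + 1 := ⟨t - 1, by omega⟩
  refine ⟨xL (n + 1), ?_⟩
  rw [act_eq]
  have h := iter_CylL n
  rw [one_div]
  exact h

lemma lim_zero : lim (cyl {0} aL) = 0 := lim_CylL

end Pool.PCAut
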