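import Mathlib

/-!
# MP_2afb6f_co, spectral consistency: definitions

A finite family of graphs is `F i`, `i < m`, with `F i` a graph on `k i` vertices.
-/

set_option autoImplicit false

namespace Pool.SpecCons

open SimpleGraph Matrix

section Extremal

variable {m : ℕ} {k : Fin m → ℕ}

/-- `G` contains no member of the family (as a not necessarily induced subgraph). -/
def Free (F : ∀ i : Fin m, SimpleGraph (Fin (k i))) {V : Type} (G : SimpleGraph V) : Prop :=
  ∀ i, ¬ (F i).IsContained G

/-- The graphs on `n` vertices without a member of the family, with the maximum number of edges. -/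
def EX (F : ∀ i : Fin m, SimpleGraph (Fin (k i))) (n : ℕ) : Set (SimpleGraph (Fin n)) :=
  {G | Free F G ∧ ∀ G' : SimpleGraph (Fin n), Free F G' → G'.edgeSet.ncard ≤ G.edgeSet.ncard}

open Classical in
/-- The eigenvalues of the adjacency matrix. -/
def eigenvalues {n : ℕ} (G : SimpleGraph (Fin n)) : Set ℝ :=
  {μ | ∃ x : Fin n → ℝ, x ≠ 0 ∧ G.adjMatrix ℝ *ᵥ x = μ • x}

/-- The spectral radius: the largest eigenvalue. -/
noncomputable def radius {n : ℕ} (G : SimpleGraph (Fin n)) : ℝ := sSup (eigenvalues G)

/-- The graphs on `n` vertices without a member of the family, with the maximum spectral radius. -/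
def SPEX (F : ∀ i : Fin m, SimpleGraph (Fin (k i))) (n : ℕ) : Set (SimpleGraph (Fin n)) :=
  {G | Free F G ∧ ∀ G' : SimpleGraph (Fin n), Free F G' → radius G' ≤ radius G}

/-- The join of two graphs. -/
def join {V W : Type} (G : SimpleGraph V) (H : SimpleGraph W) : SimpleGraph (V ⊕ W) :=
  (Gᶜ ⊕g Hᶜ)ᶜ

/-- For a member `H` of the family and some `t`, `H` is contained in the join of `M ∪ E_t` and the
Turan graph `T_(p-1)((p-1)t)`. -/
def Emb (p : ℕ) (F : ∀ i : Fin m, SimpleGraph (Fin (k i))) {V : Type} (M : SimpleGraph V) : Prop :=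
  ∃ (i : Fin m) (t : ℕ), (F i).IsContained
    (join (M ⊕g (⊥ : SimpleGraph (Fin t))) (turanGraph ((p - 1) * t) (p - 1)))

/-- `M` belongs to the decomposition family: it satisfies `Emb`, and no proper subgraph does. -/
def Decomp (p : ℕ) (F : ∀ i : Fin m, SimpleGraph (Fin (k i))) {V : Type} (M : SimpleGraph V) :
    Prop :=
  Emb p F M ∧ ∀ M' : M.Subgraph, Emb p F M'.coe → M' = ⊤

end Extremal

/-- The matching with `j` edges. -/
def matching (j : ℕ) : SimpleGraph (Fin j × Fin 2) := SimpleGraph.fromRel fun a b => a.1 = b.1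

end Pool.SpecCons
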