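import Pool.Agent.H14.INS.SCDefs
import Pool.Agent.H41.SCEnd

/-!
# MP_2afb6f_co, spectral consistency: the theorem in own words
-/

set_option autoImplicit false

namespace Pool.SpecCons

open SimpleGraph Matrix Pool.Agent.H41.SC

/-! ### the decomposition family -/

theorem join_adj {V W : Type} (G : SimpleGraph V) (H : SimpleGraph W) (a b : V ⊕ W) :
    (join G H).Adj a b ↔ (∃ v w, a = .inl v ∧ b = .inl w ∧ G.Adj v w) ∨
      (∃ v w, a = .inr v ∧ b = .inr w ∧ H.Adj v w) ∨ (∃ v w, a = .inl v ∧ b = .inr w) ∨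
      ∃ v w, a = .inr v ∧ b = .inl w := by
  rcases a with v | v <;> rcases b with w | w
  · simp only [join, compl_adj, ne_eq, Sum.inl.injEq, sum_adj, not_and, not_not]
    constructor
    · rintro ⟨h1, h2⟩
      exact Or.inl ⟨v, w, rfl, rfl, h2 h1⟩
    · rintro (⟨v', w', h1, h2, h3⟩ | ⟨v', w', h1, -⟩ | ⟨v', w', -, h1⟩ | ⟨v', w', h1, -⟩)
      · cases h1; cases h2
        exact ⟨h3.ne, fun _ => h3⟩
      · cases h1
      · cases h1
      · cases h1
  · simp [join]
  · simp [join]
  · simp only [join, compl_adj, ne_eq, Sum.inr.injEq, sum_adj, not_and, not_not]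
    constructor
    · rintro ⟨h1, h2⟩
      exact Or.inr (Or.inl ⟨v, w, rfl, rfl, h2 h1⟩)
    · rintro (⟨v', w', h1, -⟩ | ⟨v', w', h1, h2, h3⟩ | ⟨v', w', h1, -⟩ | ⟨v', w', -, h1⟩)
      · cases h1
      · cases h1; cases h2
        exact ⟨h3.ne, fun _ => h3⟩
      · cases h1
      · cases h1

/-- the adjacency of labels: `inl v` is the vertex `v` of `M`, `inr false` an isolated vertex on the
left, `inr true` a vertex on the right -/
def lok {V : Type} (M : SimpleGraph V) : V ⊕ Bool → V ⊕ Bool → Prop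
  | .inl v, .inl w => M.Adj v w
  | .inl _, .inr b => b = true
  | .inr b, .inl _ => b = true
  | .inr b, .inr b' => b ≠ b'

variable {m : ℕ} {k : Fin m → ℕ}

theorem emb_iff (F : ∀ i : Fin m, SimpleGraph (Fin (k i))) {V : Type} (M : SimpleGraph V) :
    Emb 2 F M ↔ ∃ (i : Fin m) (l : Fin (k i) → V ⊕ Bool),
      (∀ a b v, l a = .inl v → l b = .inl v → a = b) ∧
      ∀ a b, (F i).Adj a b → lok M (l a) (l b) := by
  constructor
  · rintro ⟨i, t, ⟨⟨f, hf⟩⟩⟩
    have hf' : Function.Injective f := hf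
    let g : (V ⊕ Fin t) ⊕ Fin ((2 - 1) * t) → V ⊕ Bool := fun z =>
      match z with
      | .inl (.inl v) => .inl v
      | .inl (.inr _) => .inr false
      | .inr _ => .inr true
    refine ⟨i, fun a => g (f a), ?_, ?_⟩
    · intro a b v ha hb
      apply hf'
      have key : ∀ z : (V ⊕ Fin t) ⊕ Fin ((2 - 1) * t), g z = .inl v → z = .inl (.inl v) := by
        rintro ((w | w) | w) hw
        · have : w = v := Sum.inl.inj hw
          rw [this]
        · cases hw
        · cases hw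
      rw [key _ ha, key _ hb]
    · intro a b hab
      have h1 := f.map_adj hab
      show lok M (g (f a)) (g (f b))
      generalize f a = x at h1
      generalize f b = y at h1
      rw [join_adj] at h1
      rcases h1 with ⟨v, w, rfl, rfl, h2⟩ | ⟨v, w, rfl, rfl, h2⟩ | ⟨v, w, rfl, rfl⟩ |
        ⟨v, w, rfl, rfl⟩
      · rcases v with v | v <;> rcases w with w | w
        · show M.Adj v w
          simpa using h2
        · simp at h2
        · simp at h2
        · simp at h2
      · rw [turanGraph_adj] at h2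
        exfalso
        apply h2
        show (v : ℕ) % 1 = (w : ℕ) % 1
        rw [Nat.mod_one, Nat.mod_one]
      · rcases v with v | v
        · rfl
        · show false ≠ true
          decide
      · rcases w with w | w
        · rfl
        · show true ≠ false
          decide
  · rintro ⟨i, l, hl, hadj⟩
    let f : Fin (k i) → (V ⊕ Fin (k i)) ⊕ Fin ((2 - 1) * k i) := fun a =>
      match l a with
      | .inl v => .inl (.inl v)
      | .inr false => .inl (.inr a)
      | .inr true => .inr ⟨a, by simp⟩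
    have e1 : ∀ a v, l a = .inl v → f a = .inl (.inl v) := fun a v h => by simp only [f, h]
    have e2 : ∀ a, l a = .inr false → f a = .inl (.inr a) := fun a h => by simp only [f, h]
    have e3 : ∀ a, l a = .inr true → f a = .inr ⟨a, by simp⟩ := fun a h => by simp only [f, h]
    have hc : ∀ a, (∃ v, l a = .inl v) ∨ l a = .inr false ∨ l a = .inr true := by
      intro a
      generalize l a = z
      rcases z with v | (_ | _)
      · exact Or.inl ⟨v, rfl⟩
      · exact Or.inr (Or.inl rfl)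
      · exact Or.inr (Or.inr rfl)
    refine ⟨i, k i, ⟨⟨⟨f, ?_⟩, ?_⟩⟩⟩
    · intro a b hab
      have h1 := hadj a b hab
      rw [join_adj]
      rcases hc a with ⟨v, hv⟩ | ha | ha <;> rcases hc b with ⟨w, hw⟩ | hb | hb
      · rw [hv, hw] at h1
        have h1' : M.Adj v w := h1
        exact Or.inl ⟨_, _, e1 a v hv, e1 b w hw, by simpa using h1'⟩
      · rw [hv, hb] at h1
        cases (h1 : false = true)
      · exact Or.inr (Or.inr (Or.inl ⟨_, _, e1 a v hv, e3 b hb⟩))
      · rw [ha, hw] at h1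
        cases (h1 : false = true)
      · rw [ha, hb] at h1
        exact absurd rfl (h1 : false ≠ false)
      · exact Or.inr (Or.inr (Or.inl ⟨_, _, e2 a ha, e3 b hb⟩))
      · exact Or.inr (Or.inr (Or.inr ⟨_, _, e3 a ha, e1 b w hw⟩))
      · exact Or.inr (Or.inr (Or.inr ⟨_, _, e3 a ha, e2 b hb⟩))
      · rw [ha, hb] at h1
        exact absurd rfl (h1 : true ≠ true)
    · intro a b hab
      have hab' : f a = f b := hab
      rcases hc a with ⟨v, hv⟩ | ha | ha <;> rcases hc b with ⟨w, hw⟩ | hb | hb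
      · rw [e1 a v hv, e1 b w hw] at hab'
        have : v = w := Sum.inl.inj (Sum.inl.inj hab')
        subst this
        exact hl a b v hv hw
      · rw [e1 a v hv, e2 b hb] at hab'
        cases hab'
      · rw [e1 a v hv, e3 b hb] at hab'
        cases hab'
      · rw [e2 a ha, e1 b w hw] at hab'
        cases hab'
      · rw [e2 a ha, e2 b hb] at hab'
        exact Sum.inr.inj (Sum.inl.inj hab')
      · rw [e2 a ha, e3 b hb] at hab'
        cases hab'
      · rw [e3 a ha, e1 b w hw] at hab'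
        cases hab'
      · rw [e3 a ha, e2 b hb] at hab'
        cases hab'
      · rw [e3 a ha, e3 b hb] at hab'
        exact Fin.ext (Fin.mk.inj (Sum.inr.inj hab'))

theorem matching_adj {j : ℕ} (a b : Fin j × Fin 2) : (matching j).Adj a b ↔ a ≠ b ∧ a.1 = b.1 := by
  unfold matching
  rw [fromRel_adj]
  constructor
  · rintro ⟨h1, h2 | h2⟩
    · exact ⟨h1, h2⟩
    · exact ⟨h1, h2.symm⟩
  · rintro ⟨h1, h2⟩
    exact ⟨h1, Or.inl h2⟩

/-- a matching embeds -/
theorem emb_tri : Emb 2 FF (matching 14) := by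
  obtain ⟨i, hi⟩ := exists_FF tri tri_bad
  rw [emb_iff]
  let l : Fin 40 → (Fin 14 × Fin 2) ⊕ Bool := fun a => if h : a.val % 3 = 2 then .inr true else
    .inl (⟨a.val / 3, by have := a.2; omega⟩, ⟨a.val % 3, by omega⟩)
  have l1 : ∀ a : Fin 40, a.val % 3 = 2 → l a = .inr true := fun a h => dif_pos h
  have l2 : ∀ (a : Fin 40) (h : ¬ a.val % 3 = 2), l a =
      .inl (⟨a.val / 3, by have := a.2; omega⟩, ⟨a.val % 3, by omega⟩) := fun a h => dif_neg h
  refine ⟨i, l, ?_, ?_⟩
  · intro a b v ha hb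
    by_cases h1 : a.val % 3 = 2
    · rw [l1 a h1] at ha
      cases ha
    by_cases h2 : b.val % 3 = 2
    · rw [l1 b h2] at hb
      cases hb
    rw [l2 a h1] at ha
    rw [l2 b h2] at hb
    have h3 := Sum.inl.inj (ha.trans hb.symm)
    have h4 := congrArg (fun p => (p.1 : ℕ)) h3
    have h5 := congrArg (fun p => (p.2 : ℕ)) h3
    simp only at h4 h5
    apply Fin.ext
    omega
  · intro a b hab
    rw [hi] at hab
    obtain ⟨hne, h3⟩ := hab
    have hne' : a.val ≠ b.val := fun h => hne (Fin.ext h)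
    by_cases h1 : a.val % 3 = 2
    · rw [l1 a h1]
      by_cases h2 : b.val % 3 = 2
      · omega
      · rw [l2 b h2]
        rfl
    · rw [l2 a h1]
      by_cases h2 : b.val % 3 = 2
      · rw [l1 b h2]
        rfl
      · rw [l2 b h2]
        show (matching 14).Adj _ _
        rw [matching_adj]
        refine ⟨fun h => ?_, ?_⟩
        · have h4 := congrArg (fun p => (p.2 : ℕ)) h
          simp only at h4
          omega
        · apply Fin.ext
          exact h3

/-- the empty matching does not embed -/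
theorem not_emb_zero : ¬ Emb 2 FF (matching 0) := by
  rw [emb_iff]
  rintro ⟨i, l, -, hadj⟩
  have h0 : ∀ a, ∃ b, l a = .inr b := by
    intro a
    generalize l a = z
    rcases z with v | b
    · exact v.1.elim0
    · exact ⟨b, rfl⟩
  choose c hc using h0
  have h1 : (FF i).Colorable 2 := by
    refine ⟨(SimpleGraph.Coloring.mk (fun a => if c a then (0 : Fin 2) else 1) ?_)⟩
    intro a b hab h
    have h2 := hadj a b hab
    rw [hc a, hc b] at h2
    apply (h2 : c a ≠ c b)
    cases hca : c a <;> cases hcb : c b <;> simp [hca, hcb] at h ⊢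
  have h2 := SimpleGraph.chromaticNumber_le_iff_colorable.2 h1
  have h3 := (chi_ge i).trans h2
  have h4 : (2 + 1 : ℕ) ≤ 2 := by exact_mod_cast h3
  omega

/-- removing a missing edge -/
theorem emb_remove {j : ℕ} (M' : (matching (j + 1)).Subgraph) (q : Fin (j + 1))
    (hq : ¬ M'.Adj (q, 0) (q, 1)) (h : Emb 2 FF M'.coe) : Emb 2 FF (matching j) := by
  rw [emb_iff] at h ⊢
  obtain ⟨i, l, hl, hadj⟩ := h
  have hex : ∀ r : Fin (j + 1), r ≠ q → ∃ s : Fin j, q.succAbove s = r := fun r hr =>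
    Fin.exists_succAbove_eq hr
  choose p hp using hex
  let g : M'.verts ⊕ Bool → (Fin j × Fin 2) ⊕ Bool := fun z =>
    match z with
    | .inl v => if h : v.1.1 = q then .inr false else .inl (p v.1.1 h, v.1.2)
    | .inr b => .inr b
  have g1 : ∀ v : M'.verts, v.1.1 = q → g (.inl v) = .inr false := fun v hv => dif_pos hv
  have g2 : ∀ (v : M'.verts) (h : v.1.1 ≠ q), g (.inl v) = .inl (p v.1.1 h, v.1.2) :=
    fun v hv => dif_neg hv
  have g3 : ∀ z w, g z = .inl w → ∃ v : M'.verts, z = .inl v ∧ ∃ h : v.1.1 ≠ q,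
      (p v.1.1 h, v.1.2) = w := by
    rintro (v | b) w hw
    · by_cases hv : v.1.1 = q
      · rw [g1 v hv] at hw
        cases hw
      · rw [g2 v hv] at hw
        exact ⟨v, rfl, hv, Sum.inl.inj hw⟩
    · cases hw
  refine ⟨i, fun a => g (l a), ?_, ?_⟩
  · intro a b w ha hb
    obtain ⟨v, hv, hvq, hvw⟩ := g3 _ _ ha
    obtain ⟨v', hv', hvq', hvw'⟩ := g3 _ _ hb
    have h1 := hvw.trans hvw'.symm
    have h2 : v.1.1 = v'.1.1 := by
      have h1' := (Prod.mk.inj h1).1
      rw [← hp _ hvq, ← hp _ hvq', h1']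
    have h3 : v = v' := Subtype.ext (Prod.ext h2 (Prod.mk.inj h1).2)
    subst h3
    exact hl a b v hv hv'
  · intro a b hab
    have h1 := hadj a b hab
    show lok _ (g (l a)) (g (l b))
    generalize l a = x at h1
    generalize l b = y at h1
    rcases x with v | x <;> rcases y with w | y
    · have h2 : M'.Adj v.1 w.1 := h1
      have h3 := (matching_adj _ _).1 h2.adj_sub
      have hvq : v.1.1 ≠ q := by
        intro hvq
        apply hq
        have e1 : v.1 = (q, v.1.2) := Prod.ext hvq rfl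
        have e2 : w.1 = (q, w.1.2) := Prod.ext (h3.2 ▸ hvq) rfl
        rw [e1, e2] at h2 h3
        have h4 : v.1.2 ≠ w.1.2 := fun h => h3.1 (by rw [h])
        generalize v.1.2 = s at h2 h4
        generalize w.1.2 = s' at h2 h4
        fin_cases s <;> fin_cases s'
        · exact absurd rfl h4
        · exact h2
        · exact h2.symm
        · exact absurd rfl h4
      have hwq : w.1.1 ≠ q := h3.2 ▸ hvq
      rw [g2 v hvq, g2 w hwq]
      show (matching j).Adj _ _
      rw [matching_adj]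
      refine ⟨fun h => h3.1 (Prod.ext h3.2 (Prod.mk.inj h).2), ?_⟩
      show p v.1.1 hvq = p w.1.1 hwq
      congr 1
      exact h3.2
    · have h2 : y = true := h1
      subst h2
      by_cases hv : v.1.1 = q
      · rw [g1 v hv]
        show false ≠ true
        decide
      · rw [g2 v hv]
        rfl
    · have h2 : x = true := h1
      subst h2
      by_cases hw : w.1.1 = q
      · rw [g1 w hw]
        show true ≠ false
        decide
      · rw [g2 w hw]
        rfl
    · exact h1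

theorem exists_decomp : ∃ j, 1 ≤ j ∧ Decomp 2 FF (matching j) := by
  classical
  have hex : ∃ j, Emb 2 FF (matching j) := ⟨14, emb_tri⟩
  obtain ⟨j, hj1, hj2⟩ : ∃ j, Emb 2 FF (matching j) ∧ ∀ i < j, ¬ Emb 2 FF (matching i) :=
    ⟨Nat.find hex, Nat.find_spec hex, fun i hi => Nat.find_min hex hi⟩
  rcases j with _ | j
  · exact absurd hj1 not_emb_zero
  refine ⟨j + 1, by omega, hj1, fun M' hM' => ?_⟩
  have hall : ∀ q : Fin (j + 1), M'.Adj (q, 0) (q, 1) := by
    intro q
    by_contra hq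
    exact hj2 j (by omega) (emb_remove M' q hq hM')
  have hadj : ∀ a b, (matching (j + 1)).Adj a b → M'.Adj a b := by
    rintro ⟨q, s⟩ ⟨q', s'⟩ hab
    obtain ⟨h1, h2⟩ := (matching_adj _ _).1 hab
    simp only at h2
    subst h2
    have h4 : s ≠ s' := fun h => h1 (by rw [h])
    fin_cases s <;> fin_cases s'
    · exact absurd rfl h4
    · exact hall q
    · exact (hall q).symm
    · exact absurd rfl h4
  ext a b
  · simp only [Subgraph.verts_top, Set.mem_univ, iff_true]
    obtain ⟨q, s⟩ := a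
    fin_cases s
    · exact (hall q).fst_mem
    · exact (hall q).snd_mem
  · simp only [Subgraph.top_adj]
    exact ⟨fun h => h.adj_sub, hadj a b⟩

/-! ### the spectral radius -/

open Classical in
theorem radius_spec {n : ℕ} (hn : 0 < n) (G : SimpleGraph (Fin n)) :
    (∃ y : Fin n → ℝ, y ≠ 0 ∧ y ⬝ᵥ (G.adjMatrix ℝ *ᵥ y) = radius G * (y ⬝ᵥ y)) ∧
      ∀ x : Fin n → ℝ, x ⬝ᵥ (G.adjMatrix ℝ *ᵥ x) ≤ radius G * (x ⬝ᵥ x) := by
  obtain ⟨y, hy, hmax⟩ := max_vec hn G
  set A : Matrix (Fin n) (Fin n) ℝ := G.adjMatrix ℝ with hA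
  have hmax' : ∀ x : Fin n → ℝ, x ⬝ᵥ (A *ᵥ x) ≤ (y ⬝ᵥ (A *ᵥ y)) * (x ⬝ᵥ x) := by
    intro x
    have h := hmax x
    rw [← qform, ← qform, ← sqform] at h
    exact h
  have hyy : y ⬝ᵥ y = 1 := by rw [sqform]; exact hy
  have hy0 : y ≠ 0 := by
    rintro rfl
    simp at hyy
  set q : ℝ := y ⬝ᵥ (A *ᵥ y) with hq
  have hsym : ∀ u v : Fin n → ℝ, u ⬝ᵥ (A *ᵥ v) = v ⬝ᵥ (A *ᵥ u) := by
    intro u v
    have h1 : A.transpose = A := G.transpose_adjMatrix
    rw [Matrix.dotProduct_mulVec, ← Matrix.mulVec_transpose, h1, dotProduct_comm]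
  -- `y` is an eigenvector
  have hev : A *ᵥ y = q • y := by
    set z : Fin n → ℝ := A *ᵥ y - q • y with hz
    have h1 : ∀ s : ℝ, 0 ≤ -2 * s * (z ⬝ᵥ z) + s ^ 2 * (q * (z ⬝ᵥ z) - z ⬝ᵥ (A *ᵥ z)) := by
      intro s
      have h2 := hmax' (y + s • z)
      rw [Matrix.mulVec_add, Matrix.mulVec_smul] at h2
      simp only [add_dotProduct, dotProduct_add, smul_dotProduct, dotProduct_smul, smul_eq_mul]
        at h2
      rw [hsym y z, hyy] at h2
      have h3 : z ⬝ᵥ (A *ᵥ y) = z ⬝ᵥ z + q * (z ⬝ᵥ y) := by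
        have : A *ᵥ y = z + q • y := by rw [hz]; abel
        rw [this, dotProduct_add, dotProduct_smul, smul_eq_mul]
      have h4 : y ⬝ᵥ z = z ⬝ᵥ y := dotProduct_comm _ _
      rw [h3, h4] at h2
      nlinarith
    have h5 : z ⬝ᵥ z = 0 := by
      have hN : 0 ≤ z ⬝ᵥ z := by
        rw [sqform]
        exact Finset.sum_nonneg fun i _ => sq_nonneg _
      by_contra hne
      have hN' : 0 < z ⬝ᵥ z := lt_of_le_of_ne hN (Ne.symm hne)
      set c : ℝ := q * (z ⬝ᵥ z) - z ⬝ᵥ (A *ᵥ z) with hc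
      have hc1 : 0 < |c| + 1 := by positivity
      have h6 := h1 ((z ⬝ᵥ z) / (|c| + 1))
      have h7 : -2 * ((z ⬝ᵥ z) / (|c| + 1)) * (z ⬝ᵥ z) + ((z ⬝ᵥ z) / (|c| + 1)) ^ 2 * c =
          ((z ⬝ᵥ z) / (|c| + 1)) ^ 2 * (c - 2 * (|c| + 1)) := by
        field_simp
        ring
      rw [h7] at h6
      have h8 : 0 < ((z ⬝ᵥ z) / (|c| + 1)) ^ 2 := by positivity
      have h9 : c - 2 * (|c| + 1) < 0 := by
        have := le_abs_self c
        have := abs_nonneg c
        linarith
      exact absurd h6 (not_le.2 (mul_neg_of_pos_of_neg h8 h9))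
    have h6 : z = 0 := dotProduct_self_eq_zero.1 h5
    rw [hz, sub_eq_zero] at h6
    exact h6
  have hgr : IsGreatest (eigenvalues G) q := by
    refine ⟨⟨y, hy0, hev⟩, ?_⟩
    rintro μ ⟨x, hx, hxe⟩
    have h1 := hmax' x
    rw [show A *ᵥ x = μ • x from hxe, dotProduct_smul, smul_eq_mul] at h1
    have hpos : 0 < x ⬝ᵥ x := by
      rw [sqform]
      obtain ⟨i, hi⟩ : ∃ i, x i ≠ 0 := by
        by_contra h
        push Not at h
        exact hx (funext h)
      refine lt_of_lt_of_le (by positivity : 0 < x i ^ 2) ?_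
      exact Finset.single_le_sum (f := fun i => x i ^ 2) (fun i _ => sq_nonneg _)
        (Finset.mem_univ i)
    exact le_of_mul_le_mul_right h1 hpos
  have hr : radius G = q := hgr.csSup_eq
  rw [hr]
  exact ⟨⟨y, hy0, by rw [hyy, mul_one]⟩, hmax'⟩

open Classical in
theorem not_consistent : {n : ℕ | ¬ SPEX FF n ⊆ EX FF n}.Infinite := by
  rw [Set.infinite_iff_exists_gt]
  intro N
  by_contra hcon
  push Not at hcon
  apply main
  refine ⟨N + 1, fun n hn G hG => ?_⟩
  have hn' : ¬ n ∈ {n : ℕ | ¬ SPEX FF n ⊆ EX FF n} := fun h => absurd (hcon n h) (by omega)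
  have hsub : SPEX FF n ⊆ EX FF n := by
    by_contra h
    exact hn' h
  refine hsub ⟨hG.1, fun G' hG' => ?_⟩
  obtain ⟨x, hx, hxe⟩ := (radius_spec (by omega : 0 < n) G').1
  obtain ⟨y, hy, hyx⟩ := hG.2 G' hG' x hx
  have h1 := (radius_spec (by omega : 0 < n) G).2 y
  have pos : ∀ x : Fin n → ℝ, x ≠ 0 → 0 < x ⬝ᵥ x := by
    intro x hx
    rw [sqform]
    obtain ⟨i, hi⟩ : ∃ i, x i ≠ 0 := by
      by_contra h
      push Not at h
      exact hx (funext h)
    refine lt_of_lt_of_le (by positivity : 0 < x i ^ 2) ?_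
    exact Finset.single_le_sum (f := fun i => x i ^ 2) (fun i _ => sq_nonneg _)
      (Finset.mem_univ i)
  have hxp := pos x hx
  have hyp := pos y hy
  rw [hxe] at hyx
  have h2 : radius G' * (x ⬝ᵥ x) * (y ⬝ᵥ y) ≤ radius G * (x ⬝ᵥ x) * (y ⬝ᵥ y) := by
    calc radius G' * (x ⬝ᵥ x) * (y ⬝ᵥ y) ≤ (y ⬝ᵥ (G.adjMatrix ℝ *ᵥ y)) * (x ⬝ᵥ x) := hyx
      _ ≤ radius G * (y ⬝ᵥ y) * (x ⬝ᵥ x) := mul_le_mul_of_nonneg_right h1 hxp.le
      _ = radius G * (x ⬝ᵥ x) * (y ⬝ᵥ y) := by ring
  exact le_of_mul_le_mul_right (le_of_mul_le_mul_right h2 hyp) hxp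

theorem chi_least : IsLeast (Set.range fun i => (FF i).chromaticNumber) ((2 + 1 : ℕ) : ℕ∞) :=
  ⟨cond1, by rintro _ ⟨i, rfl⟩; exact chi_ge i⟩

end Pool.SpecCons
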